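import Pool.Agent.Helper45.LinK.GoalsK

/-! # UNI1: the linear parts of the elements acting trivially on `D` are bounded -/

open Complex Metric Set Filter Topology MeasureTheory
open scoped ContDiff ComplexConjugate ComplexOrder

namespace Pool.Agent.Helper53.LinK

open Pool.Agent.Helper95.Lin Pool.Agent.Helper16.Abund Pool.Agent.Helper92.Orb
open Pool.Agent.Helper45.LinK

section

variable {b k : ℕ} {D : Set (Cn b)} {Γ : Type} [Group Γ] {g : Γ → Cn b → Cn b}
  {A : Γ → Cn b → CE k} {β : Γ → Cn b → Cn k}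

/-- powers of a trivially acting element. -/
lemma triv_pow (h : LActK D g A β) {γ : Γ} (hγ : ∀ y ∈ D, g γ y = y) (n : ℕ) :
    ∀ y ∈ D, g (γ ^ n) y = y := by
  induction n with
  | zero => intro y hy; simpa using h.base.act.one y hy
  | succ n ih =>
    intro y hy
    rw [pow_succ, h.base.act.mul _ _ y hy, hγ y hy, ih y hy]

lemma triv_inv (h : LActK D g A β) {γ : Γ} (hγ : ∀ y ∈ D, g γ y = y) :
    ∀ y ∈ D, g γ⁻¹ y = y := by
  intro y hy
  have h1 := h.base.act.mul γ⁻¹ γ y hy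
  rw [inv_mul_cancel, h.base.act.one y hy, hγ y hy] at h1
  exact h1.symm

lemma A_pow (h : LActK D g A β) {γ : Γ} (hγ : ∀ y ∈ D, g γ y = y) {z : Cn b} (hz : z ∈ D)
    (n : ℕ) : A (γ ^ n) z = (A γ z) ^ n := by
  induction n with
  | zero => simpa using h.a_one z hz
  | succ n ih =>
    rw [pow_succ, h.a_mul _ _ z hz, hγ z hz, ih, pow_succ]

lemma b_pow (h : LActK D g A β) {γ : Γ} (hγ : ∀ y ∈ D, g γ y = y) {z : Cn b} (hz : z ∈ D)
    {p : Cn k} (hp : A γ z p + β γ z = p) (n : ℕ) : A (γ ^ n) z p + β (γ ^ n) z = p := by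
  induction n with
  | zero => simp [h.a_one z hz, h.b_one z hz]
  | succ n ih =>
    rw [pow_succ, h.a_mul _ _ z hz, h.b_mul _ _ z hz, hγ z hz]
    have h1 : (A (γ ^ n) z * A γ z) p = A (γ ^ n) z (A γ z p) := rfl
    rw [h1, ← add_assoc, ← map_add, hp, ih]

lemma A_inv (h : LActK D g A β) {γ : Γ} (hγ : ∀ y ∈ D, g γ y = y) {z : Cn b} (hz : z ∈ D) :
    A γ⁻¹ z * A γ z = 1 := by
  have h1 := h.a_mul γ⁻¹ γ z hz
  rw [inv_mul_cancel, h.a_one z hz, hγ z hz] at h1
  exact h1.symm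

omit [Group Γ] in
lemma det_mul' (L M : CE k) : (L * M).det = L.det * M.det := by
  simp only [ContinuousLinearMap.det]
  rw [← map_mul]
  rfl

/-- `|det| < 1` is impossible. -/
lemma not_lt (h : LActK D g A β) {c : ℝ} (hc : 1 ≤ c)
    (hdet : ∀ (L : CE k) (C : ℝ), 0 ≤ C → QC C L → ‖L‖ ^ k ≤ c * C ^ k * ‖L.det‖)
    {z : Cn b} (hz : z ∈ D) {γ : Γ} (hγ : ∀ y ∈ D, g γ y = y) : ¬ ‖(A γ z).det‖ < 1 := by
  intro hlt
  obtain ⟨CQ, hCQ, hq⟩ := h.qc {z} (by simpa using hz) isCompact_singleton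
  have hQ : ∀ n : ℕ, QC CQ ((A γ z) ^ n) := by
    intro n
    have := hq (γ ^ n) z (mem_singleton z) (by rw [triv_pow h hγ n z hz]; exact mem_singleton z)
    rwa [A_pow h hγ hz] at this
  have hdpow : ∀ n : ℕ, ((A γ z) ^ n).det = (A γ z).det ^ n := by
    intro n
    induction n with
    | zero =>
      simp only [pow_zero, ContinuousLinearMap.det]
      exact LinearMap.det_id
    | succ n ih => rw [pow_succ, pow_succ, det_mul', ih]
  -- the determinant is not zero
  have hd0 : (A γ z).det ≠ 0 := by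
    have h1 := A_inv h hγ hz
    have h2 : (A γ⁻¹ z * A γ z).det = (A γ⁻¹ z).det * (A γ z).det := by
      simp only [ContinuousLinearMap.det]
      rw [← map_mul]
      rfl
    rw [h1] at h2
    have h3 : (1 : CE k).det = 1 := by
      simp only [ContinuousLinearMap.det]
      exact LinearMap.det_id
    rw [h3] at h2
    intro h4
    rw [h4, mul_zero] at h2
    exact one_ne_zero h2
  -- k is positive
  have hk : k ≠ 0 := by
    rintro rfl
    have h1 : (A γ z).det = 1 := by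
      simp only [ContinuousLinearMap.det]
      have : ((A γ z : CE 0) : Cn 0 →ₗ[ℂ] Cn 0) = LinearMap.id := by
        ext i; exact Fin.elim0 i
      rw [this]; exact LinearMap.det_id
    rw [h1] at hlt
    simp at hlt
  -- the powers tend to zero
  have ht : Tendsto (fun n : ℕ => ‖(A γ z) ^ n‖) atTop (𝓝 0) := by
    have h1 : Tendsto (fun n : ℕ => c * CQ ^ k * ‖(A γ z).det‖ ^ n) atTop (𝓝 0) := by
      simpa using (tendsto_pow_atTop_nhds_zero_of_lt_one (norm_nonneg _) hlt).const_mul (c * CQ ^ k)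
    have h2 : Tendsto (fun n : ℕ => ‖(A γ z) ^ n‖ ^ k) atTop (𝓝 0) := by
      refine squeeze_zero (fun n => by positivity) (fun n => ?_) h1
      have := hdet ((A γ z) ^ n) CQ hCQ (hQ n)
      rwa [hdpow, norm_pow (A γ z).det n] at this
    rw [Metric.tendsto_atTop] at h2 ⊢
    intro ε hε
    obtain ⟨N, hN⟩ := h2 (ε ^ k) (by positivity)
    refine ⟨N, fun n hn => ?_⟩
    have h3 := hN n hn
    rw [Real.dist_eq, sub_zero, abs_of_nonneg (by positivity)] at h3 ⊢
    exact lt_of_pow_lt_pow_left₀ k hε.le h3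
  -- a fixed point
  have hinj : Function.Injective ((1 - A γ z : CE k) : Cn k →ₗ[ℂ] Cn k) := by
    rw [← LinearMap.ker_eq_bot, LinearMap.ker_eq_bot']
    intro v hv
    have hv1 : A γ z v = v := by
      have : v - A γ z v = 0 := hv
      exact (sub_eq_zero.1 this).symm
    have hv2 : ∀ n : ℕ, ((A γ z) ^ n) v = v := by
      intro n
      induction n with
      | zero => rfl
      | succ n ih =>
        rw [pow_succ]
        change ((A γ z) ^ n) (A γ z v) = v
        rw [hv1, ih]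
    have h4 : Tendsto (fun n : ℕ => ‖(A γ z) ^ n‖ * ‖v‖) atTop (𝓝 0) := by
      simpa using ht.mul_const ‖v‖
    have h5 : ‖v‖ ≤ 0 := by
      refine ge_of_tendsto' h4 (fun n => ?_)
      calc ‖v‖ = ‖((A γ z) ^ n) v‖ := by rw [hv2 n]
        _ ≤ _ := ContinuousLinearMap.le_opNorm _ _
    exact norm_le_zero_iff.1 h5
  have hsurj := LinearMap.surjective_of_injective hinj
  obtain ⟨p, hp⟩ := hsurj (β γ z)
  have hp1 : A γ z p + β γ z = p := by
    have : p - A γ z p = β γ z := hp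
    rw [← this]; abel
  -- finiteness
  have hfin := h.proper {z} (by simpa using hz) isCompact_singleton ‖p‖
  have hmem : ∀ n : ℕ, γ ^ n ∈ {γ | ∃ z' ∈ ({z} : Set (Cn b)), ∃ w : Cn k, ‖w‖ ≤ ‖p‖ ∧
      g γ z' ∈ ({z} : Set (Cn b)) ∧ ‖A γ z' w + β γ z'‖ ≤ ‖p‖} := by
    intro n
    refine ⟨z, mem_singleton z, p, le_rfl, ?_, ?_⟩
    · rw [triv_pow h hγ n z hz]; exact mem_singleton z
    · rw [b_pow h hγ hz hp1 n]
  obtain ⟨n, m, hnm, heq⟩ : ∃ n m : ℕ, n < m ∧ γ ^ n = γ ^ m := by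
    have : ¬ Function.Injective (fun n : ℕ => γ ^ n) := by
      intro hi
      exact Set.infinite_of_injective_forall_mem hi hmem hfin
    simp only [Function.Injective, not_forall] at this
    obtain ⟨n, m, h6, h7⟩ := this
    rcases lt_or_gt_of_ne h7 with h8 | h8
    · exact ⟨n, m, h8, h6⟩
    · exact ⟨m, n, h8, h6.symm⟩
  have h9 : ‖(A γ z).det‖ ^ n = ‖(A γ z).det‖ ^ m := by
    rw [← norm_pow (A γ z).det n, ← norm_pow (A γ z).det m, ← hdpow, ← hdpow, ← A_pow h hγ hz, ← A_pow h hγ hz, heq]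
  have h10 : ‖(A γ z).det‖ ^ m < ‖(A γ z).det‖ ^ n :=
    pow_lt_pow_right_of_lt_one₀ (norm_pos_iff.2 hd0) hlt hnm
  linarith

end

theorem UNI1 (hD : S_DETB) : S_UNI1 := by
  intro b k D Γ _ g A β h z hz
  obtain ⟨c, hc, -, hdet⟩ := hD k
  obtain ⟨CQ, hCQ, hq⟩ := h.qc {z} (by simpa using hz) isCompact_singleton
  refine ⟨max 1 (c * CQ ^ k), fun γ hγ => ?_⟩
  have h1 : ¬ ‖(A γ z).det‖ < 1 := not_lt h hc hdet hz hγ
  have h2 : ¬ ‖(A γ⁻¹ z).det‖ < 1 := not_lt h hc hdet hz (triv_inv h hγ)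
  have h3 : ‖(A γ⁻¹ z).det‖ * ‖(A γ z).det‖ = 1 := by
    have h4 := A_inv h hγ hz
    have h5 : (A γ⁻¹ z * A γ z).det = (A γ⁻¹ z).det * (A γ z).det := by
      simp only [ContinuousLinearMap.det]
      rw [← map_mul]
      rfl
    have h6 : (1 : CE k).det = 1 := by
      simp only [ContinuousLinearMap.det]
      exact LinearMap.det_id
    rw [← norm_mul, ← h5, h4, h6, norm_one]
  have h4 : ‖(A γ z).det‖ ≤ 1 := by
    by_contra h5
    push Not at h5 h1 h2
    nlinarith
  have h5 : QC CQ (A γ z) :=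
    hq γ z (mem_singleton z) (by rw [hγ z hz]; exact mem_singleton z)
  have h6 : ‖A γ z‖ ^ k ≤ c * CQ ^ k := by
    have := hdet (A γ z) CQ hCQ h5
    have h7 : 0 ≤ c * CQ ^ k := by positivity
    nlinarith
  rcases Nat.eq_zero_or_pos k with rfl | hk
  · have h7 : A γ z = 0 := by
      ext v i; exact Fin.elim0 i
    rw [h7]; simp
  · rcases le_or_gt ‖A γ z‖ 1 with h7 | h7
    · exact h7.trans (le_max_left _ _)
    · refine le_trans ?_ (le_max_right _ _)
      refine le_trans ?_ h6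
      exact le_self_pow₀ h7.le hk.ne'

end Pool.Agent.Helper53.LinK
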